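import Pool.Agent.Y425.BF6.Fin

/-!
Quadruple covers by six even subgraphs of all bridgeless graphs of cutwidth at most six.

The cutwidth is at most six if the vertices can be placed on a line such that at most six edges pass
over each gap. Proof. Assign to each edge the 4-subset of the indices of the even subgraphs
containing it. A vertex with at least four edges has two edges to the same side; they are moved to a
new vertex next to it, which is joined to the old one unless the new edge would be a bridge: this
keeps the graph bridgeless and does not increase the width. Vertices with two edges are suppressed.
So the graph is cubic (with arbitrary cuts of size two). For each initial segment X of the line the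
set of the states of the at most six edges leaving X that extend to X contains, up to the
permutations of the edges and of the six indices, one of 78 explicit sets; a type also records some
cuts inside X with at most one inner edge. Adding a cubic vertex to a type gives a type again unless
it creates a bridge; this is checked by the kernel with explicit witnesses.
-/

set_option autoImplicit false

open Finset

namespace Pool.Agent.Results.MP_40718a_co.CutwidthSix

/-- Let `G` be a finite graph with loops and parallel edges allowed, given by the two ends `s e` and
`t e` of each edge `e`. Assume that no set of vertices is left by exactly one edge (no bridges) and
that the vertices can be numbered injectively by natural numbers such that for each `n` at most six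
edges join a vertex with number smaller than `n` to a vertex with number at least `n`. Then there
are six even subgraphs such that each edge lies in exactly four of them. -/
theorem result (V E : Type) [Fintype V] [DecidableEq V] [Fintype E] [DecidableEq E] (s t : E → V)
    (hbridge : ∀ Z : Finset V, (univ.filter fun e => ¬ (s e ∈ Z ↔ t e ∈ Z)).card ≠ 1)
    (hwidth : ∃ f : V → ℕ, Function.Injective f ∧
      ∀ n, (univ.filter fun e => ¬ (f (s e) < n ↔ f (t e) < n)).card ≤ 6) :
    ∃ C : Fin 6 → Finset E,
      (∀ i v, Even (((C i).filter (fun e => s e = v)).card +
        ((C i).filter (fun e => t e = v)).card)) ∧
      ∀ e, (univ.filter (fun i => e ∈ C i)).card = 4 :=
  Pool.Agent.Y425.BF6.final V E s t hbridge hwidth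

end Pool.Agent.Results.MP_40718a_co.CutwidthSix
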